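import Pool.Agent.Lib.MP_144d21_co.XU.Iface

/-! MP_144d21_co, project XU, module BETCUT. -/

set_option autoImplicit false

namespace Pool.Agent.Xu.H38

open Finset Polynomial

/-- a graph with an edge has no colouring with one colour -/
theorem chi_eval_one (h : ChiS) {V : Type} [Fintype V] [DecidableEq V] (G : SimpleGraph V)
    (S : Finset V) (a b : V) (ha : a ∈ S) (hb : b ∈ S) (hab : G.Adj a b) :
    (chi G S).eval 1 = 0 := by
  have h1 := h V G S 1
  rw [Nat.cast_one] at h1
  rw [h1]
  have : cols G S 1 = ∅ := by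
    rw [Finset.eq_empty_iff_forall_notMem]
    intro c hc
    rw [mem_cols] at hc
    have e1 := hc.1 a ha
    have e2 := hc.1 b hb
    exact hc.2.2 a ha b hb hab (by omega)
  rw [this]
  simp

/-- each side of a 2-cut has an edge to the cut vertex `y` -/
theorem side_edge {V : Type} [Fintype V] [DecidableEq V] (G : SimpleGraph V)
    (S1 S2 : Finset V) (x y : V) (h2 : TwoConn G (S1 ∪ S2)) (hI : S1 ∩ S2 = {x, y})
    (hxy : x ≠ y) (hs : Sep G S1 S2) (h12 : ¬ S1 ⊆ S2) :
    ∃ a ∈ S1, a ∉ S2 ∧ G.Adj a y := by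
  have hx : x ∈ S1 ∩ S2 := by rw [hI]; simp
  have hy : y ∈ S1 ∩ S2 := by rw [hI]; simp
  rw [mem_inter] at hx hy
  obtain ⟨a0, ha0, ha0'⟩ := Finset.not_subset.1 h12
  have hc := h2.2.2 x (mem_union_left _ hx.1)
  obtain ⟨a, ha, b, hb, hbA, hadj⟩ := hc.2 (S1 \ S2) (by
    intro z hz
    rw [mem_sdiff] at hz
    rw [mem_erase]
    exact ⟨fun e => hz.2 (e ▸ hx.2), mem_union_left _ hz.1⟩)
    ⟨a0, mem_sdiff.2 ⟨ha0, ha0'⟩⟩ (by
    intro e
    have : y ∈ S1 \ S2 := by
      rw [e, mem_erase]
      exact ⟨hxy.symm, mem_union_left _ hy.1⟩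
    exact (mem_sdiff.1 this).2 hy.2)
  rw [mem_sdiff] at ha
  rw [mem_erase, mem_union] at hb
  have hb2 : b ∈ S2 := by
    by_contra hn
    rcases hb.2 with h | h
    · exact hbA (mem_sdiff.2 ⟨h, hn⟩)
    · exact hn h
  have hb1 : b ∈ S1 := by
    by_contra hn
    exact hs a ha.1 ha.2 b hb2 hn hadj
  have hbI : b ∈ S1 ∩ S2 := mem_inter.2 ⟨hb1, hb2⟩
  rw [hI, mem_insert, mem_singleton] at hbI
  rcases hbI with h | h
  · exact absurd h hb.1
  · subst h
    exact ⟨a, ha.1, ha.2, hadj⟩

theorem sep_symm {V : Type} [Fintype V] [DecidableEq V] {G : SimpleGraph V}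
    {S1 S2 : Finset V} (h : Sep G S1 S2) : Sep G S2 S1 :=
  fun a ha ha' b hb hb' hab => h b hb hb' a ha ha' hab.symm

theorem betcut (hchi : ChiS) (hdc : ChidcS) (hgl : ChiglS) : BetcutS := by
  intro V _ _ G S1 S2 x y h2 hI hxy hs h12 h21
  have hx : x ∈ S1 ∩ S2 := by rw [hI]; simp
  have hy : y ∈ S1 ∩ S2 := by rw [hI]; simp
  rw [mem_inter] at hx hy
  have hadd : (add G x y).Adj x y := Or.inr ⟨hxy, Or.inl ⟨rfl, rfl⟩⟩
  have hs' : Sep (add G x y) S1 S2 := by
    intro a ha ha' b hb hb' hab
    rcases hab with h | ⟨_, h⟩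
    · exact hs a ha ha' b hb hb' h
    · rcases h with h | h
      · exact ha' (h.1 ▸ hx.2)
      · exact ha' (h.1 ▸ hy.2)
  -- first step: the derivative at one
  have step1 : (derivative (chi G (S1 ∪ S2))).eval 1 =
      (derivative (chi (add G x y) (S1 ∪ S2))).eval 1 := by
    by_cases hG : G.Adj x y
    · rw [chi_congr (G := G) (G' := add G x y)]
      intro u _ v _
      constructor
      · exact fun h => Or.inl h
      · rintro (h | ⟨_, h⟩)
        · exact h
        · rcases h with h | h
          · rw [h.1, h.2]; exact hG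
          · rw [h.1, h.2]; exact hG.symm
    · have e1 := hdc V (add G x y) (S1 ∪ S2) x y (mem_union_left _ hx.1) (mem_union_left _ hy.1)
        hadd
      have e2 : chi (del (add G x y) x y) (S1 ∪ S2) = chi G (S1 ∪ S2) := by
        apply chi_congr
        intro u _ v _
        constructor
        · rintro ⟨h | ⟨_, h⟩, h1, h2⟩
          · exact h
          · rcases h with h | h
            · exact absurd h h1
            · exact absurd h h2
        · intro h
          refine ⟨Or.inl h, ?_, ?_⟩
          · rintro ⟨rfl, rfl⟩; exact hG h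
          · rintro ⟨rfl, rfl⟩; exact hG h.symm
      rw [e2] at e1
      set K := con (add G x y) x y with hK
      have e3 : (S1 ∪ S2).erase x = S1.erase x ∪ S2.erase x := by
        ext z; simp only [mem_erase, mem_union]; tauto
      have e4 : S1.erase x ∩ S2.erase x = {y} := by
        ext z
        simp only [mem_erase, mem_inter, mem_singleton]
        constructor
        · rintro ⟨⟨h1, h2⟩, _, h3⟩
          have : z ∈ S1 ∩ S2 := mem_inter.2 ⟨h2, h3⟩
          rw [hI, mem_insert, mem_singleton] at this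
          tauto
        · rintro rfl
          exact ⟨⟨hxy.symm, hy.1⟩, hxy.symm, hy.2⟩
      have e5 : Sep K (S1.erase x) (S2.erase x) := by
        intro a ha ha' b hb hb' hab
        rw [mem_erase] at ha hb
        rw [mem_erase, not_and] at ha' hb'
        have ha2 := ha' ha.1
        have hb1 := hb' hb.1
        rcases hab with ⟨_, h | h | h⟩
        · exact hs' a ha.2 ha2 b hb.2 hb1 h
        · exact ha2 (h.1 ▸ hy.2)
        · exact hb1 (h.1 ▸ hy.1)
      have e6 := (hgl V K (S1.erase x) (S2.erase x) e5).2.1 y e4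
      rw [← e3] at e6
      obtain ⟨a1, ha1, ha1', hadj1⟩ := side_edge G S1 S2 x y h2 hI hxy hs h12
      obtain ⟨a2, ha2, ha2', hadj2⟩ := side_edge G S2 S1 x y (by rwa [union_comm])
        (by rwa [inter_comm]) hxy (sep_symm hs) h21
      have q1 : (chi K (S1.erase x)).eval 1 = 0 := by
        refine chi_eval_one hchi K _ a1 y (mem_erase.2 ⟨fun e => ha1' (e ▸ hx.2), ha1⟩)
          (mem_erase.2 ⟨hxy.symm, hy.1⟩) ?_
        exact ⟨hadj1.ne, Or.inl (Or.inl hadj1)⟩
      have q2 : (chi K (S2.erase x)).eval 1 = 0 := by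
        refine chi_eval_one hchi K _ a2 y (mem_erase.2 ⟨fun e => ha2' (e ▸ hx.1), ha2⟩)
          (mem_erase.2 ⟨hxy.symm, hy.2⟩) ?_
        exact ⟨hadj2.ne, Or.inl (Or.inl hadj2)⟩
      have e7 := congrArg (fun P : ℤ[X] => P.eval 1) e6
      have e8 := congrArg (fun P : ℤ[X] => (derivative P).eval 1) e6
      simp only [eval_mul, eval_X, derivative_mul, eval_add, derivative_X, eval_one, q1, q2,
        one_mul, mul_zero, zero_mul, add_zero] at e7 e8
      rw [e7, zero_add] at e8
      rw [e1, derivative_add, eval_add, e8, add_zero]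
  -- second step
  have f1 := (hgl V (add G x y) S1 S2 hs').2.2 x y hadd hI
  have p0 := chi_eval_one hchi (add G x y) (S1 ∪ S2) x y (mem_union_left _ hx.1)
    (mem_union_left _ hy.1) hadd
  have p1 := chi_eval_one hchi (add G x y) S1 x y hx.1 hy.1 hadd
  have p2 := chi_eval_one hchi (add G x y) S2 x y hx.2 hy.2 hadd
  have f2 := congrArg (fun P : ℤ[X] => (derivative (derivative P)).eval 1) f1
  simp only [derivative_mul, derivative_add, derivative_X, derivative_sub, derivative_one,
    derivative_C, eval_mul, eval_add, eval_sub, eval_X, eval_one, eval_C, eval_zero, p0, p1, p2,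
    derivative_zero, sub_zero, mul_zero, zero_mul, add_zero, zero_add, sub_self, mul_one,
    one_mul] at f2
  have hcard : (S1 ∪ S2).card + 2 = S1.card + S2.card := by
    rw [← card_union_add_card_inter, hI, card_pair hxy]
  unfold bet
  rw [step1]
  have hsgn : ((-1 : ℤ)) ^ (S1 ∪ S2).card = (-1) ^ S1.card * (-1) ^ S2.card := by
    rw [← pow_add, ← hcard, pow_add]; norm_num
  rw [hsgn]
  have f3 : (derivative (chi (add G x y) (S1 ∪ S2))).eval 1 =
      (derivative (chi (add G x y) S1)).eval 1 * (derivative (chi (add G x y) S2)).eval 1 := by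
    linarith
  rw [f3]
  ring

end Pool.Agent.Xu.H38
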