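import Pool.Agent.Lib.MP_144d21_co.XU.Iface

/-! MP_144d21_co, project XU, module CYCCON. -/

set_option autoImplicit false

namespace Pool.Agent.Xu.H38

open Finset SimpleGraph

theorem cyc_adj {n : ℕ} (hn : 3 ≤ n) (i j : Fin n) : (cycleGraph n).Adj i j ↔
    (i.val + 1 = j.val ∨ j.val + 1 = i.val ∨ (i.val = 0 ∧ j.val + 1 = n) ∨
      (j.val = 0 ∧ i.val + 1 = n)) := by
  have key : ∀ a b : Fin n, (a - b).val = 1 ↔ (b.val + 1 = a.val ∨ (a.val = 0 ∧ b.val + 1 = n)) := by
    intro a b
    have ha := a.isLt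
    have hb := b.isLt
    rw [Fin.sub_def]
    simp only
    by_cases h : b.val ≤ a.val
    · have e : n - b.val + a.val = (a.val - b.val) + n := by omega
      rw [e, Nat.add_mod_right, Nat.mod_eq_of_lt (by omega)]
      omega
    · rw [Nat.mod_eq_of_lt (by omega)]
      omega
  rw [cycleGraph_adj', key, key]
  omega

theorem rot {V : Type} {G : SimpleGraph V} {n : ℕ} (hn : 3 ≤ n) (f : cycleGraph n ↪g G)
    (i0 i1 : Fin n) (h : (cycleGraph n).Adj i0 i1) :
    ∃ g : cycleGraph n ↪g G, g ⟨0, by omega⟩ = f i0 ∧ g ⟨1, by omega⟩ = f i1 ∧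
      ∀ j, ∃ i, g j = f i := by
  have : NeZero n := ⟨by omega⟩
  have h0 : (⟨0, by omega⟩ : Fin n) = 0 := rfl
  have h1 : (⟨1, by omega⟩ : Fin n) = 1 := by
    apply Fin.ext
    rw [Fin.val_one', Nat.mod_eq_of_lt (by omega)]
  rw [h0, h1]
  have hone : ((1 : Fin n)).val = 1 := by
    rw [Fin.val_one', Nat.mod_eq_of_lt (by omega)]
  rw [cycleGraph_adj'] at h
  rcases h with h | h
  · -- i0 - i1 = 1
    have e : i1 = i0 - 1 := by
      have : i0 - i1 = 1 := Fin.ext (by rw [h, hone])
      rw [← this]; abel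
    refine ⟨⟨⟨fun k => f (i0 - k), ?_⟩, ?_⟩, ?_, ?_, ?_⟩
    · intro a b hab
      have := f.injective hab
      simpa using this
    · intro a b
      change G.Adj (f (i0 - a)) (f (i0 - b)) ↔ _
      rw [f.map_adj_iff, cycleGraph_adj', cycleGraph_adj', sub_sub_sub_cancel_left,
        sub_sub_sub_cancel_left]
      exact or_comm
    · change f (i0 - 0) = f i0
      rw [sub_zero]
    · change f (i0 - 1) = f i1
      rw [e]
    · intro j
      exact ⟨i0 - j, rfl⟩
  · have e : i1 = i0 + 1 := by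
      have : i1 - i0 = 1 := Fin.ext (by rw [h, hone])
      rw [← this]; abel
    refine ⟨⟨⟨fun k => f (i0 + k), ?_⟩, ?_⟩, ?_, ?_, ?_⟩
    · intro a b hab
      have := f.injective hab
      simpa using this
    · intro a b
      change G.Adj (f (i0 + a)) (f (i0 + b)) ↔ _
      rw [f.map_adj_iff, cycleGraph_adj', cycleGraph_adj', add_sub_add_left_eq_sub,
        add_sub_add_left_eq_sub]
    · change f (i0 + 0) = f i0
      rw [add_zero]
    · change f (i0 + 1) = f i1
      rw [e]
    · intro j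
      exact ⟨i0 + j, rfl⟩

theorem cyccon : CycconS := by
  intro V _ _ G S v w hv hw hvw hch n hn f hf hfv hfw
  obtain ⟨i0, hi0⟩ := hfv
  obtain ⟨i1, hi1⟩ := hfw
  have hadj : (cycleGraph n).Adj i0 i1 := by
    rw [← f.map_adj_iff, hi0, hi1]; exact hvw
  obtain ⟨g, g0, g1, gf⟩ := rot (by omega) f i0 i1 hadj
  rw [hi0] at g0
  rw [hi1] at g1
  have hgS : ∀ j, g j ∈ S := by
    intro j
    obtain ⟨i, hi⟩ := gf j
    rw [hi]; exact hf i
  have hga : ∀ j k : Fin n, G.Adj (g j) (g k) ↔ (j.val + 1 = k.val ∨ k.val + 1 = j.val ∨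
      (j.val = 0 ∧ k.val + 1 = n) ∨ (k.val = 0 ∧ j.val + 1 = n)) := by
    intro j k
    rw [g.map_adj_iff, cyc_adj (by omega)]
  by_cases h4 : n = 4
  · subst h4
    refine ⟨g ⟨2, by omega⟩, hgS _, g ⟨3, by omega⟩, hgS _, ?_, ?_, ?_, ?_, ?_, ?_, ?_⟩
    · rw [← g1, hga]; simp
    · rw [hga]; simp
    · rw [← g0, hga]; simp
    · rw [← g0, hga]; simp
    · rw [← g1, hga]; simp
    · rw [← g0]; intro h
      have := congrArg Fin.val (g.injective h)
      simp at this
    · rw [← g1]; intro h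
      have := congrArg Fin.val (g.injective h)
      simp at this
  · exfalso
    have hn1 : 4 ≤ n - 1 := by omega
    have hlt : ∀ k : Fin (n - 1), k.val + 1 < n := fun k => by have := k.isLt; omega
    have hg0 : ∀ j : Fin n, g j = v ↔ j.val = 0 := by
      intro j
      rw [← g0]
      constructor
      · intro h
        exact congrArg Fin.val (g.injective h)
      · intro h
        congr 1
        exact Fin.ext h
    have hg1 : ∀ j : Fin n, g j = w ↔ j.val = 1 := by
      intro j
      rw [← g1]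
      constructor
      · intro h
        exact congrArg Fin.val (g.injective h)
      · intro h
        congr 1
        exact Fin.ext h
    let F : cycleGraph (n - 1) ↪g con G v w :=
      ⟨⟨fun k => g ⟨k.val + 1, hlt k⟩, by
        intro a b hab
        have := congrArg Fin.val (g.injective hab)
        simp only at this
        exact Fin.ext (by omega)⟩, by
        intro a b
        change (con G v w).Adj (g ⟨a.val + 1, hlt a⟩) (g ⟨b.val + 1, hlt b⟩) ↔ _
        rw [cyc_adj (by omega)]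
        have ha := a.isLt
        have hb := b.isLt
        have hne : g ⟨a.val + 1, hlt a⟩ ≠ g ⟨b.val + 1, hlt b⟩ ↔ a.val ≠ b.val := by
          rw [Ne, g.injective.eq_iff, Fin.ext_iff]
          simp
        change (g ⟨a.val + 1, hlt a⟩ ≠ g ⟨b.val + 1, hlt b⟩ ∧ (G.Adj _ _ ∨
          (g ⟨a.val + 1, hlt a⟩ = w ∧ G.Adj v (g ⟨b.val + 1, hlt b⟩)) ∨
          (g ⟨b.val + 1, hlt b⟩ = w ∧ G.Adj v (g ⟨a.val + 1, hlt a⟩)))) ↔ _
        rw [hne, hg1, hg1, ← g0, hga, hga, hga]
        simp only [true_and]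
        omega⟩
    obtain ⟨i, hi⟩ := hch (n - 1) hn1 F
    apply hi
    change g ⟨i.val + 1, hlt i⟩ ∈ S.erase v
    rw [mem_erase]
    refine ⟨?_, hgS _⟩
    intro h
    rw [hg0] at h
    simp at h

end Pool.Agent.Xu.H38
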